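import Pool.Agent.V11196.TFree.Intervals

/-!
# A subcategory closed under extensions and 2-kernels that is not a 3-fold torsion-free class

The abelian category is that of functors from the poset `v0 < {v1, s1} < v2 < {v3, s2} < v4` to
`ℚ`-vector spaces, and `X` consists of the functors `F` with `F(s1) = F(s2) = 0` for which
`0 → F(v0) → F(v1) → F(v3) → F(v4) → 0` is exact.
-/

namespace Pool.Agent.Results.MP_8e2405_al.NotThreeFold

open CategoryTheory Pool.Agent.V11196.TFree

theorem result : ∃ (C : Type 1) (_ : Category.{0} C) (_ : Abelian C) (m : ℕ) (X : ObjectProperty C),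
    IsKEClosed m X ∧ ¬ IsNFoldTorsionFree (m + 1) X :=
  ⟨R7, inferInstance, inferInstance, 2, XX, isKEClosed_XX, not_threeFold⟩

end Pool.Agent.Results.MP_8e2405_al.NotThreeFold
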